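import Mathlib

set_option autoImplicit false

namespace Pool.Agent.Results.MP_fc1ccb_an.Period44

open Complex Real

def e (n : ℕ) : ℤ := if (n % 22 < 10 ∨ 15 ≤ n % 22 ∧ n % 22 < 20) ↔ n % 44 < 22 then -1 else 1

def w : ℕ → ℚ × ℚ
  | 0 => (26268316704106656278032855886410153151 / 54245333921972651326363026618009448560,
      -21417607977648850431896454862937389961 / 54245333921972651326363026618009448560)
  | n + 1 => let p := w n
    (((p.1 + e n) * -2520 + p.2 * 1241) / 2809, (p.2 * -2520 - (p.1 + e n) * 1241) / 2809)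

lemma he (n : ℕ) : e (n + 44) = e n := by
  simp only [e, Nat.add_mod_right, show (n + 44) % 22 = n % 22 by omega]

lemma hw (n : ℕ) : w (n + 44) = w n := by
  induction n with
  | zero => decide +kernel
  | succ n ih => rw [add_right_comm, w, ih, he, w]

lemma hs (n : ℕ) : e n * (w n).1 < 0 := by
  induction n using Nat.strong_induction_on with | h n ih =>
  rcases lt_or_ge n 44 with h | h
  · exact (by decide +kernel : ∀ n < 44, e n * (w n).1 < 0) n h
  · obtain ⟨n, rfl⟩ := Nat.exists_eq_add_of_le' h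
    rw [he, hw]; exact ih n (by omega)

/-- An admissible pair whose sign sequence has period 44. Here `z n` is `z_{n-1}`. -/
theorem result : ∃ (α : ℝ) (z : ℕ → ℂ) (ε : ℕ → ℤ), Irrational α ∧ 0 < α ∧
    (∀ n, ε n = 1 ∨ ε n = -1) ∧
    (∀ n, z (n + 1) = z n + ε n * cexp (2 * π * I * α * n)) ∧
    (∀ n, ‖z n + ε n * cexp (2 * π * I * α * n)‖ < ‖z n - ε n * cexp (2 * π * I * α * n)‖) ∧
    IsLeast {p : ℕ | 0 < p ∧ ∃ N, ∀ n ≥ N, ε (n + p) = ε n} 44 := by
  let θ := arccos (-2520 / 2809)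
  have hc : Real.cos θ = -2520 / 2809 := cos_arccos (by norm_num) (by norm_num)
  have hsn : Real.sin θ = 1241 / 2809 := by
    rw [sin_arccos, sqrt_eq_iff_mul_self_eq (by norm_num) (by norm_num)]; norm_num
  have hE : ∀ n : ℕ, 2 * π * I * (θ / (2 * π) : ℝ) * n = (n * θ : ℝ) * I := fun n => by
    have : (π : ℂ) ≠ 0 := ofReal_ne_zero.2 pi_ne_zero
    push_cast; field_simp
  have hε : ∀ n, e n = 1 ∨ e n = -1 := fun n => by unfold e; split_ifs <;> simp
  refine ⟨θ / (2 * π), fun n => ((w n).1 + (w n).2 * I) * cexp ((n * θ : ℝ) * I), e, ?_,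
    div_pos (arccos_pos.2 (by norm_num)) two_pi_pos, hε, fun n => ?_, fun n => ?_,
    ⟨by norm_num, 0, fun n _ => he n⟩, ?_⟩
  · rintro ⟨q, hq⟩
    have := niven (θ := θ) ⟨2 * q, by push_cast; rw [hq]; field_simp⟩ ⟨-2520 / 2809, by simp [hc]⟩
    rw [hc] at this
    norm_num at this
  · have : cexp (θ * I) = (-2520 + 1241 * I) / 2809 := by
      rw [exp_mul_I, ← ofReal_cos, ← ofReal_sin, hc, hsn]; push_cast; ring
    simp only [hE, w]
    push_cast
    rw [add_mul (n : ℂ), one_mul, add_mul (n * θ : ℂ), Complex.exp_add, this]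
    linear_combination cexp (n * θ * I) * 1241 * ((((w n).2 : ℂ) * -2520 -
      ((w n).1 + e n) * 1241) / 2809 ^ 2) * I_sq
  · rw [hE, ← add_mul, ← sub_mul, norm_mul, norm_mul, norm_exp_ofReal_mul_I, mul_one, mul_one,
      ← sq_lt_sq₀ (norm_nonneg _) (norm_nonneg _), Complex.sq_norm, Complex.sq_norm]
    have : (e n : ℝ) * (w n).1 < 0 := by exact_mod_cast hs n
    simp [normSq_apply]
    nlinarith
  · rintro p ⟨h0, N, h⟩
    by_contra hp
    obtain ⟨n, -, hn⟩ := (by decide : ∀ p < 44, 0 < p → ∃ n < 44, e (n + p) ≠ e n) p (by omega) h0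
    have k : ∀ m n, e (n + 44 * m) = e n := fun m n => by
      induction m with
      | zero => rfl
      | succ m ih => rw [mul_add_one, ← add_assoc, he, ih]
    exact hn (by rw [← k N n, ← h (n + 44 * N) (by omega), add_right_comm, k])

end Pool.Agent.Results.MP_fc1ccb_an.Period44
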